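import Pool.Agent.H29.TC.Defs

/-!
# Thin cosets of Hecke characters: targets
-/

set_option autoImplicit false

open NumberField NumberField.InfinitePlace NumberField.Units
  NumberField.Units.dirichletUnitTheorem MeasureTheory Set Filter Complex
open scoped nonZeroDivisors ENNReal

namespace Pool.Agent.H29.TC

open Pool.Agent.H25.HK Pool.Agent.H28.RC Pool.Agent.H23.LB

/-! ### Part A: finite rings -/

open scoped Classical in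
/-- (FG) the transfer by Gauss sums in a finite ring. -/
def T_FG : Prop :=
  ∀ (R : Type) [CommRing R] [Fintype R] (G : Ideal R) (η θ : R → ℂ), MC η → AC θ →
    (∀ w : R, w ≠ 0 → ∃ r : R, IsUnit (1 + r * w) ∧ η (1 + r * w) ≠ 1) →
    (∀ w : R, (∀ r : R, θ (r * w) = 1) → w = 0) →
    (∀ w : R, w ≠ 0 → ∃ r : R, r * w ≠ 0 ∧ r * w ∈ G) →
    ∀ (X Y : Finset R), (∀ x : R, ∃! r, r ∈ X ∧ x - r ∈ G) →
      (∀ x : R, ∃! r, r ∈ Y ∧ x - r ∈ G) →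
    (∀ r ∈ X, Nontrivial R → ∑ a : R, (if a - r ∈ G then η a else 0) = 0) ∧
    ∀ b : R → ℂ,
    ∑ r ∈ X, ‖∑ y : R, (∑ a : R, (if a - r ∈ G then η a * θ (a * y) else 0)) * b y‖ ^ 2 =
      (Fintype.card R : ℝ) *
        ∑ r ∈ Y, ‖∑ y : R, (if y - r ∈ G then (starRingEnd ℂ) (η y) * b y else 0)‖ ^ 2

open scoped Classical in
/-- (FP) the transfer for a product with a ring `A` where all characters occur. -/
def T_FP2 : Prop :=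
  ∀ (A B : Type) [CommRing A] [Fintype A] [CommRing B] [Fintype B] (G : Ideal B) (c : A → ℂ)
    (η : B → ℂ) (θ : A × B → ℂ), (∀ a, ‖c a‖ ≤ 1) → MC η → AC θ →
    (∀ w : B, w ≠ 0 → ∃ r : B, IsUnit (1 + r * w) ∧ η (1 + r * w) ≠ 1) →
    (∀ w : A × B, (∀ r : A × B, θ (r * w) = 1) → w = 0) →
    (∀ w : B, w ≠ 0 → ∃ r : B, r * w ≠ 0 ∧ r * w ∈ G) →
    ∀ (X Y : Finset B), (∀ x : B, ∃! r, r ∈ X ∧ x - r ∈ G) →
      (∀ x : B, ∃! r, r ∈ Y ∧ x - r ∈ G) → ∀ b : A × B → ℂ,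
    ∑ a : A, ∑ r ∈ X, ‖∑ y : A × B, (∑ a' : B, (if a' - r ∈ G then
      c a * η a' * θ ((a, a') * y) else 0)) * b y‖ ^ 2 ≤
      (Fintype.card (A × B) : ℝ) * ∑ a : A, ∑ r ∈ Y,
        ‖∑ y : B, (if y - r ∈ G then (starRingEnd ℂ) (η y) * b (a, y) else 0)‖ ^ 2

/-! ### Part B: characters -/

/-- (DF) the ideals dividing `k`. -/
def T_DF : Prop :=
  ∀ (K : Type) [Field K] [NumberField K] (k : Ideal (𝓞 K)), k ≠ ⊥ →
    ∀ e : Ideal (𝓞 K), e ∈ dvs K k ↔ k ≤ e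

/-- (DV) the divisor bound. -/
def T_DV : Prop :=
  ∀ (n : ℕ) (ε : ℝ), 0 < ε → ∃ C : ℝ, ∀ (K : Type) [Field K] [NumberField K],
    Module.finrank ℚ K = n → ∀ k : Ideal (𝓞 K), k ≠ ⊥ →
    ((dvs K k).card : ℝ) ≤ C * Nf K k ^ ε

/-- (TW) the coefficients of a product. -/
def T_TW : Prop :=
  ∀ (K : Type) [Field K] [NumberField K] (f g : Ideal (𝓞 K)) (χ : HC K f) (η : HC K g)
    (h : f ≤ g) (M : FI K), f ≠ ⊥ → f ≠ ⊤ → M ≠ 0 → ∀ x ∈ M,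
    cf (tw χ η h) M x = cf χ M x * cf η M x

/-- (GX) generators of `M` modulo `f M` exist. -/
def T_GX : Prop :=
  ∀ (K : Type) [Field K] [NumberField K] (f : Ideal (𝓞 K)) (M : FI K), f ≠ ⊥ → M ≠ 0 →
    ∃ x₀ : K, Gn f M x₀

/-- (CQ) the function `cq`; change of the modulus. -/
def T_CQ : Prop :=
  ∀ (K : Type) [Field K] [NumberField K] (f : Ideal (𝓞 K)) (η : 𝓞 K ⧸ f → ℂ) (M : FI K)
    (x₀ : K), f ≠ ⊥ → M ≠ 0 → Gn f M x₀ →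
    (∀ (a : 𝓞 K) (x : K), x - (a : K) * x₀ ∈ (f : FI K) * M →
      cq f η M x₀ x = η (Ideal.Quotient.mk f a)) ∧
    (∀ x ∈ M, ∀ l ∈ (f : FI K) * M, cq f η M x₀ (x + l) = cq f η M x₀ x) ∧
    (∀ g : Ideal (𝓞 K), f ≤ g → Gn g M x₀)

open scoped Classical in
/-- (SP) the local component of a Hecke character at the primes dividing `k`. -/
def T_SP : Prop :=
  ∀ (K : Type) [Field K] [NumberField K] (l g k : Ideal (𝓞 K)), GK l g k →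
    ∀ (χ : HC K (fk l g k)), Prk k χ → ∃ η : 𝓞 K ⧸ (g * k ^ 2) → ℂ, LC (g * k ^ 2) η ∧
    ∀ (M : FI K) (x₀ : K), M ≠ 0 → Gn (fk l g k) M x₀ → ∃ c : K → ℂ, (∀ x ∈ M, ‖c x‖ ≤ 1) ∧
      (∀ x ∈ M, ∀ t ∈ (l : FI K) * M, c (x + t) = c x) ∧
      ∀ x ∈ M, cf χ M x = c x * cq (g * k ^ 2) η M x₀ x

/-- (TR) the transfer by Gauss sums. -/
def T_TR : Prop :=
  ∀ (K : Type) [Field K] [NumberField K] (l g k : Ideal (𝓞 K)), GK l g k →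
    ∀ (η : 𝓞 K ⧸ (g * k ^ 2) → ℂ), LC (g * k ^ 2) η → ∀ (M : FI K) (x₀ y₀ : K) (c : K → ℂ)
    (X X₁ Y : Finset K), M ≠ 0 → Gn (fk l g k) M x₀ →
    Gn (fk l g k) (du K ((fk l g k : FI K) * M)) y₀ → (∀ x ∈ M, ‖c x‖ ≤ 1) →
    (∀ x ∈ M, ∀ t ∈ (l : FI K) * M, c (x + t) = c x) → Rep K (fk l g k) M X →
    Rep K (l * g) M X₁ → Rep K (l * g) (du K ((fk l g k : FI K) * M)) Y →
    (∀ r ∈ X₁, ft K X (cr K (l * g) M (fun x => c x * cq (g * k ^ 2) η M x₀ x) r) 0 = 0) ∧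
    ∀ b : K → ℂ, Summable (fun y : {y : K // y ∈ du K ((fk l g k : FI K) * M)} => ‖b y‖) →
    ∑ r ∈ X₁, ‖∑' y : {y : K // y ∈ du K ((fk l g k : FI K) * M)},
      ft K X (cr K (l * g) M (fun x => c x * cq (g * k ^ 2) η M x₀ x) r) y * b y‖ ^ 2 ≤
    Nf K (fk l g k) * ∑ r ∈ Y, ‖∑' y : {y : K // y ∈ du K ((fk l g k : FI K) * M)},
      cr K (l * g) (du K ((fk l g k : FI K) * M))
        (fun y => (starRingEnd ℂ) (cq (g * k ^ 2) η (du K ((fk l g k : FI K) * M)) y₀ y)) r y *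
          b y‖ ^ 2

/-- (CS) the complete sums. -/
def T_CS : Prop :=
  ∀ (K : Type) [Field K] [NumberField K] (g k : Ideal (𝓞 K)), GK ⊤ g k →
    ∀ (η : 𝓞 K ⧸ (g * k ^ 2) → ℂ), LC (g * k ^ 2) η → ∀ (M : FI K) (x₀ : K)
    (e : Ideal (𝓞 K)) (h : K), M ≠ 0 → Gn (g * k ^ 2) M x₀ → k ≤ e →
    h ∈ ((g * e : Ideal (𝓞 K)) : FI K) * M →
    (∀ e' : Ideal (𝓞 K), k ≤ e' → h ∈ ((g * e' : Ideal (𝓞 K)) : FI K) * M → e ≤ e') →
    (∀ x ∈ M, ∀ t ∈ ((k ^ 2 : Ideal (𝓞 K)) : FI K) * M,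
      cq (g * k ^ 2) η M x₀ (x + t + h) * (starRingEnd ℂ) (cq (g * k ^ 2) η M x₀ (x + t)) =
        cq (g * k ^ 2) η M x₀ (x + h) * (starRingEnd ℂ) (cq (g * k ^ 2) η M x₀ x)) ∧
    ∀ (X : Finset K), Rep K (k ^ 2) M X → ∀ y ∈ du K (((k ^ 2 : Ideal (𝓞 K)) : FI K) * M),
      ‖ft K X (fun x => cq (g * k ^ 2) η M x₀ (x + h) *
        (starRingEnd ℂ) (cq (g * k ^ 2) η M x₀ x)) y‖ ≤ (dvs K k).card * (Nf K k * Nf K e)

/-- (EX) the ideal `e` exists. -/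
def T_EX : Prop :=
  ∀ (K : Type) [Field K] [NumberField K] (g k : Ideal (𝓞 K)), g ≠ ⊥ → k ≠ ⊥ → ∀ (M : FI K),
    M ≠ 0 → ∀ h ∈ (g : FI K) * M, ∃ e : Ideal (𝓞 K), k ≤ e ∧
    h ∈ ((g * e : Ideal (𝓞 K)) : FI K) * M ∧
    (∀ e' : Ideal (𝓞 K), k ≤ e' → h ∈ ((g * e' : Ideal (𝓞 K)) : FI K) * M → e ≤ e') ∧
    ∀ l : Ideal (𝓞 K), l ⊔ k = ⊤ → h ∈ ((l * g : Ideal (𝓞 K)) : FI K) * M →
      h ∈ ((l * g * e : Ideal (𝓞 K)) : FI K) * M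

/-! ### Part C: Poisson summation for pairs -/

/-- (PR) Poisson summation for pairs `x, x + h`. -/
def T_PR : Prop :=
  ∀ (K : Type) [Field K] [NumberField K] (S : Finset (RP K)) (j : Ideal (𝓞 K)) (M : FI K)
    (X : Finset K) (c : K → ℂ) (φ B : ℝ) (h : K), j ≠ ⊥ → M ≠ 0 → Rep K j M X →
    (∀ x ∈ M, ∀ t ∈ (j : FI K) * M, c (x + t) = c x) → |φ| < Real.pi / 2 →
    (∀ y ∈ du K ((j : FI K) * M), ‖ft K X c y‖ ≤ B) → ∀ y : InfinitePlace K → ℝ,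
    ‖∑' x : {x : K // x ∈ M},
        c x * (GZ K S φ y (x + h) * (starRingEnd ℂ) (GZ K S φ y x))‖ ≤
      B * (2 ^ ((Module.finrank ℚ K : ℝ) / 2) * Real.cos φ ^ (-(Module.finrank ℚ K : ℝ))) *
        Real.exp (-Real.pi * (Real.cos φ / 4) * qK K y h) *
        th K ((j : FI K) * M) (fun v => y v + Real.log (4 * Real.cos φ))

/-- (GB) bounds for the rotated Gaussian. -/
def T_GB : Prop :=
  ∀ (K : Type) [Field K] [NumberField K] (S : Finset (RP K)) (M : FI K) (φ : ℝ), M ≠ 0 →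
    |φ| < Real.pi / 2 → ∀ y : InfinitePlace K → ℝ,
    (∀ x : K, ‖GZ K S φ y x‖ ^ 2 ≤ Real.cos φ ^ (-(Module.finrank ℚ K : ℝ)) *
      Real.exp (-Real.pi * Real.cos φ * qK K y x)) ∧
    Summable (fun x : {x : K // x ∈ M} => ‖GZ K S φ y x‖) ∧
    ∀ c : K → ℂ, tz K S M c (φ * I) y = cexp (φ * I * S.card / 2) *
      ∑' x : {x : K // x ∈ M}, c x * GZ K S φ y x

/-- (QB) the mean square over the residue classes modulo `l g`. -/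
def T_QB : Prop :=
  ∀ (K : Type) [Field K] [NumberField K] (S : Finset (RP K)) (l g k : Ideal (𝓞 K)), GK l g k →
    ∀ (η : 𝓞 K ⧸ (g * k ^ 2) → ℂ), LC (g * k ^ 2) η → ∀ (M : FI K) (x₀ : K)
    (X₁ : Finset K) (φ : ℝ), M ≠ 0 → Gn (fk l g k) M x₀ → Rep K (l * g) M X₁ →
    |φ| < Real.pi / 2 → ∀ (z : logSpace K) (T b : ℝ), 0 < T →
    b = (Real.cos φ / 4) ^ ((Module.finrank ℚ K : ℝ) / 2) →
    ∑ r ∈ X₁, ‖Wc K S (fk l g k) M (cr K (l * g) M (cq (g * k ^ 2) η M x₀) r) φ z T‖ ^ 2 ≤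
    Real.cos φ ^ (-(Module.finrank ℚ K : ℝ)) *
      (FT K M z (T * b * (Real.sqrt (Nf K (fk l g k)))⁻¹) - 1) +
    2 ^ ((Module.finrank ℚ K : ℝ) / 2) * Real.cos φ ^ (-(Module.finrank ℚ K : ℝ)) *
      ((dvs K k).card * Nf K k) * ∑ e ∈ dvs K k, Nf K e *
        ((FT K (((l * g * e : Ideal (𝓞 K)) : FI K) * M) z
          (T * b * (Nf K e / rho K (l * g) k)) - 1) *
          FT K (((k ^ 2 : Ideal (𝓞 K)) : FI K) * M) z (T * b * rho K (l * g) k))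

/-! ### Part D: integrals -/

/-- (MT) integrals of theta functions of two unimodular lattices. -/
def T_MT : Prop :=
  ∀ n : ℕ, 0 < n → ∃ B : ℝ, ∀ κ : ℝ, 0 < κ → κ ≤ 1 → ∃ C : ℝ, ∀ (ι : Type) [Fintype ι]
    [DecidableEq ι] (P Q : Matrix ι ι ℝ), P.PosDef → Q.PosDef → P.det = 1 → Q.det = 1 →
    Fintype.card ι = n → ∀ β β' b : ℝ, 0 < β → 0 < β' → 0 < b → b ≤ 1 →
    (IntegrableOn (fun T => (Fs P (T * b * β) - 1) * T ^ (κ / 2)) (Ioi 1) ∧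
    ∫ T in Ioi (1 : ℝ), (Fs P (T * b * β) - 1) * T ^ (κ / 2) ≤
      C * b ^ (-B) * β ^ (-(1 + κ)) * AF κ P) ∧
    (IntegrableOn (fun T => (Fs P (T * b * β) - 1) * Fs Q (T * b * β') * T ^ (κ / 2))
      (Ioi 1) ∧
    ∫ T in Ioi (1 : ℝ), (Fs P (T * b * β) - 1) * Fs Q (T * b * β') * T ^ (κ / 2) ≤
      C * b ^ (-B) * (β ^ (-(1 + κ)) + (β * β') ^ (-(κ / 2)) *
        Real.sqrt ((β ^ (-2 : ℝ) + β⁻¹) * (β' ^ (-2 : ℝ) + β'⁻¹))) *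
        (AF κ P + AF κ P⁻¹ + (AF κ Q + AF κ Q⁻¹)))

/-- (MU) the integral of the mean square. -/
def T_MU : Prop :=
  ∀ n : ℕ, 0 < n → ∃ B : ℝ, ∀ κ : ℝ, 0 < κ → κ ≤ 1 → ∃ C : ℝ, ∀ (K : Type) [Field K]
    [NumberField K], Module.finrank ℚ K = n → ∀ (S : Finset (RP K)) (l g k : Ideal (𝓞 K)),
    GK l g k → ∀ (η : 𝓞 K ⧸ (g * k ^ 2) → ℂ), LC (g * k ^ 2) η → ∀ (M : FI K) (x₀ : K)
    (X₁ : Finset K) (φ : ℝ), M ≠ 0 → Gn (fk l g k) M x₀ → Rep K (l * g) M X₁ →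
    |φ| < Real.pi / 2 → ∀ z : logSpace K,
    IntegrableOn (fun T : ℝ => (∑ r ∈ X₁,
      ‖Wc K S (fk l g k) M (cr K (l * g) M (cq (g * k ^ 2) η M x₀) r) φ z T‖ ^ 2) *
        T ^ (κ / 2)) (Ioi 1) ∧
    ∫ T in Ioi (1 : ℝ), (∑ r ∈ X₁,
      ‖Wc K S (fk l g k) M (cr K (l * g) M (cq (g * k ^ 2) η M x₀) r) φ z T‖ ^ 2) *
        T ^ (κ / 2) ≤
      C * Real.cos φ ^ (-B) * Nf K (fk l g k) ^ (1 / 2 + 4 * κ) *
        (1 + Nf K k / Nf K (l * g)) * Et K κ (l * g) k M z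

/-- (CU) the Mellin transform with a cut in the middle. -/
def T_CU : Prop :=
  ∀ (K : Type) [Field K] [NumberField K] (S : Finset (RP K)) (f : Ideal (𝓞 K)) (M : FI K)
    (X : Finset K) (c : K → ℂ) (φ : ℝ), f ≠ ⊥ → M ≠ 0 → Rep K f M X → |φ| < Real.pi / 2 →
    (∀ x ∈ M, ∀ t ∈ (f : FI K) * M, c (x + t) = c x) → c 0 = 0 → ft K X c 0 = 0 →
    ∀ (z : logSpace K) (s : ℂ),
    IntegrableOn (fun T : ℝ => Wc K S f M c φ z T * (T : ℂ) ^ (s - 1)) (Ioi 1) ∧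
    IntegrableOn (fun T : ℝ => Wc K S f (du K ((f : FI K) * M)) (ft K X c) (-φ) (-z) T *
      (T : ℂ) ^ (-s)) (Ioi 1) ∧
    ∑ r ∈ X, c r * EZ K S f M r φ z s =
      ((Real.sqrt (Nf K f) : ℝ) : ℂ) ^ s *
        (∫ T in Ioi (1 : ℝ), Wc K S f M c φ z T * (T : ℂ) ^ (s - 1)) +
      rn K S φ * ((Real.sqrt (Nf K f) : ℝ) : ℂ) ^ (s - 1) *
        ∫ T in Ioi (1 : ℝ), Wc K S f (du K ((f : FI K) * M)) (ft K X c) (-φ) (-z) T *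
          (T : ℂ) ^ (-s)

/-- (BB) the bound for the Mellin transforms. -/
def T_BB : Prop :=
  ∀ n : ℕ, 0 < n → ∃ B : ℝ, ∀ κ : ℝ, 0 < κ → κ ≤ 1 → ∃ C : ℝ, ∀ (K : Type) [Field K]
    [NumberField K], Module.finrank ℚ K = n → ∀ (S : Finset (RP K)) (l g k : Ideal (𝓞 K)),
    GK l g k → ∀ (χ : HC K (fk l g k)), Prk k χ → ∀ (M : FI K) (X X₁ : Finset K) (φ : ℝ),
    M ≠ 0 → Rep K (fk l g k) M X → Rep K (l * g) M X₁ → |φ| < Real.pi / 2 →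
    ∀ (z : logSpace K) (s : ℂ), |s.re - 1 / 2| ≤ κ / 8 →
    ∑ r ∈ X₁, ‖∑ r' ∈ X, cr K (l * g) M (cf χ M) r r' *
        EZ K S (fk l g k) M r' φ z s‖ ^ 2 ≤
      C * Real.cos φ ^ (-B) * Nf K (fk l g k) ^ (1 + 5 * κ) * (1 + Nf K k / Nf K (l * g)) *
        (Et K κ (l * g) k M z + Et K κ (l * g) k (du K ((fk l g k : FI K) * M)) (-z))

/-! ### Part E: the mean square -/

open scoped Classical in
/-- (ME) the mean value of the sum of Epstein zeta functions. -/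
def T_ME' : Prop :=
  ∀ (n : ℕ) (κ : ℝ), 0 < κ → ∃ C : ℝ, ∀ (K : Type) [Field K] [NumberField K],
    Module.finrank ℚ K = n → ∀ (ι : Type) [Fintype ι] (M : ι → FI K), Reps K M →
    ∀ (l g k : Ideal (𝓞 K)), GK l g k →
    (∀ c, IntegrableOn (fun z => Et K κ (l * g) k (M c) z +
      Et K κ (l * g) k (du K ((fk l g k : FI K) * M c)) (-z)) (Fd K)) ∧
    ∑ c, ∫ z in Fd K, (Et K κ (l * g) k (M c) z +
      Et K κ (l * g) k (du K ((fk l g k : FI K) * M c)) (-z)) ≤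
      C * cw K * |(discr K : ℝ)| ^ ((1 + κ) / 2) * (dvs K k).card

/-- (MC) the mean square over a coset of the characters modulo `l g`. -/
def T_MC : Prop :=
  ∀ n : ℕ, 0 < n → ∀ R : ℝ, ∃ A : ℝ, ∀ κ : ℝ, 0 < κ → κ ≤ 1 → ∃ C : ℝ, ∀ (K : Type) [Field K]
    [NumberField K], Module.finrank ℚ K = n → ∀ (l g k : Ideal (𝓞 K)), GK l g k →
    ∀ (D : Sys K (fk l g k)) (χ : HC K (fk l g k)), Prk k χ → χ ∈ fam K (fk l g k) R →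
    ∀ (Y : Finset (HC K (l * g))), (∀ ψ ∈ Y, ψ ∈ fam K (l * g) R) → ∀ s : ℂ,
    |s.re - 1 / 2| ≤ κ / 8 →
    ∑ ψ ∈ Y, ‖Lam D (tw χ ψ (fk_le l g k)) 0 s /
        ((cw K : ℂ) * ((dN K (fk l g k) : ℝ) : ℂ) ^ s *
          gS K (tw χ ψ (fk_le l g k)).S (tw χ ψ (fk_le l g k)).ν s)‖ ^ 2 ≤
      C * (1 + |s.im|) ^ A * dN K (fk l g k) ^ (8 * κ) *
        (classNumber K * regulator K * (Nf K (l * g) + Nf K k))

/-- (HR) the bound for the class number times the regulator. -/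
def T_HR : Prop :=
  ∀ (n : ℕ) (ε : ℝ), 0 < ε → ∃ C : ℝ, ∀ (K : Type) [Field K] [NumberField K],
    Module.finrank ℚ K = n →
    (classNumber K : ℝ) * regulator K ≤ C * |(discr K : ℝ)| ^ (1 / 2 + ε)

end Pool.Agent.H29.TC
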