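import Mathlib

/-!
# Stationary phase in a finite ring
-/

set_option autoImplicit false

open Finset

namespace Pool.Agent.H29.TC

section FR

variable {R : Type} [CommRing R]

/-- A multiplicative character of a ring, extended by zero. -/
structure MC (η : R → ℂ) : Prop where
  one : η 1 = 1
  mul : ∀ x y, η (x * y) = η x * η y
  unit : ∀ x, IsUnit x → ‖η x‖ = 1
  zero : ∀ x, ¬ IsUnit x → η x = 0

/-- primitive: not trivial on `1 + W` for a nonzero ideal `W` -/
def Prim (η : R → ℂ) : Prop := ∀ w : R, (∀ r : R, η (1 + r * w) = 1) → w = 0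

/-- An additive character. -/
structure AC (θ : R → ℂ) : Prop where
  add : ∀ x y, θ (x + y) = θ x * θ y
  norm : ∀ x, ‖θ x‖ = 1

theorem AC.ne {θ : R → ℂ} (h : AC θ) (x : R) : θ x ≠ 0 := by
  intro h3
  have := h.norm x
  rw [h3, norm_zero] at this
  exact zero_ne_one this

theorem AC.zero {θ : R → ℂ} (h : AC θ) : θ 0 = 1 := by
  have h1 := h.add 0 0
  rw [add_zero] at h1
  have h3 : θ 0 * (θ 0 - 1) = 0 := by
    rw [mul_sub, mul_one, ← h1, sub_self]
  rcases mul_eq_zero.1 h3 with h4 | h4
  · exact absurd h4 (h.ne 0)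
  · exact sub_eq_zero.1 h4

theorem MC.norm_le {η : R → ℂ} (h : MC η) (x : R) : ‖η x‖ ≤ 1 := by
  by_cases hx : IsUnit x
  · exact (h.unit x hx).le
  · rw [h.zero x hx, norm_zero]
    exact zero_le_one

theorem MC.conj_mul {η : R → ℂ} (h : MC η) {x : R} (hx : IsUnit x) :
    (starRingEnd ℂ) (η x) * η x = 1 := by
  rw [← Complex.normSq_eq_conj_mul_self, Complex.normSq_eq_norm_sq, h.unit x hx]
  norm_num

/-- the stationary points -/
def Stat (I : Ideal R) (b : R) (η θ : R → ℂ) : Set R :=
  {a | ∃ u : R, a * (a + b) * u = 1 ∧ ∀ k ∈ I, η (1 - k * b * u) * θ k = 1}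

theorem unit_add_nil {a k : R} (ha : IsUnit a) (hk : IsNilpotent k) : IsUnit (a + k) := by
  obtain ⟨u, rfl⟩ := ha
  have h1 : IsNilpotent (k * (u⁻¹ : Rˣ)) := by
    exact Commute.isNilpotent_mul_right (Commute.all _ _) hk
  have h2 : IsUnit (1 + k * (u⁻¹ : Rˣ)) := h1.isUnit_one_add
  have h3 : (u : R) + k = u * (1 + k * (u⁻¹ : Rˣ)) := by
    have : (u : R) * (u⁻¹ : Rˣ) = 1 := by simp
    linear_combination (-k) * this
  rw [h3]
  exact u.isUnit.mul h2

/-- a sum of a homomorphism to the circle over a finite group -/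
theorem hom_sum {G : Type} [AddCommGroup G] [Fintype G] (φ : G → ℂ)
    (hφ : ∀ x y, φ (x + y) = φ x * φ y) (h : ∃ x, φ x ≠ 1) : ∑ x, φ x = 0 := by
  obtain ⟨x, hx⟩ := h
  have h1 : ∑ y, φ y = φ x * ∑ y, φ y := by
    rw [Finset.mul_sum]
    rw [← Equiv.sum_comp (Equiv.addLeft x) φ]
    exact Finset.sum_congr rfl fun y _ => hφ x y
  have h2 : (φ x - 1) * ∑ y, φ y = 0 := by
    rw [sub_mul, one_mul, ← h1, sub_self]
  rcases mul_eq_zero.1 h2 with h3 | h3
  · exact absurd (sub_eq_zero.1 h3) hx
  · exact h3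

/-- the shift by an element of `I` -/
theorem shift (I : Ideal R) (b : R) (η θ : R → ℂ) (hη : MC η) (hθ : AC θ)
    (hI : ∀ x ∈ I, IsNilpotent x) (hb : IsNilpotent b)
    (hbI : ∀ x ∈ I, ∀ y ∈ I, b * (x * y) = 0) (a u : R) (ha : a * (a + b) * u = 1) (k : R)
    (hk : k ∈ I) :
    η (a + k + b) * (starRingEnd ℂ) (η (a + k)) * θ (a + k) =
      (η (a + b) * (starRingEnd ℂ) (η a) * θ a) * (η (1 - k * b * u) * θ k) := by
  have hau : IsUnit a := by
    refine IsUnit.of_mul_eq_one ((a + b) * u) ?_
    rw [← ha]; ring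
  have habu : IsUnit (a + b) := unit_add_nil hau hb
  have haku : IsUnit (a + k) := unit_add_nil hau (hI k hk)
  have hkk : b * (k * k) = 0 := hbI k hk k hk
  -- (a + k + b) a = (a + k) (a + b) (1 - k b u)
  have h1 : (a + k + b) * a = (a + k) * ((a + b) * (1 - k * b * u)) := by
    linear_combination (k * b) * ha + (a + b) * u * hkk
  have h2 := congrArg η h1
  rw [hη.mul, hη.mul, hη.mul] at h2
  have h3 := hη.conj_mul hau
  have h4 := hη.conj_mul haku
  rw [hθ.add]
  have h5 : η (a + k + b) * (starRingEnd ℂ) (η (a + k)) =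
      η (a + b) * (starRingEnd ℂ) (η a) * η (1 - k * b * u) := by
    calc η (a + k + b) * (starRingEnd ℂ) (η (a + k))
        = (η (a + k + b) * η a) * ((starRingEnd ℂ) (η a) * (starRingEnd ℂ) (η (a + k))) := by
          linear_combination (-(η (a + k + b) * (starRingEnd ℂ) (η (a + k)))) * h3
      _ = (η (a + k) * (η (a + b) * η (1 - k * b * u))) *
          ((starRingEnd ℂ) (η a) * (starRingEnd ℂ) (η (a + k))) := by rw [h2]
      _ = _ := by
          linear_combination (η (a + b) * η (1 - k * b * u) * (starRingEnd ℂ) (η a)) * h4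
  linear_combination (θ a * θ k) * h5

open scoped Classical in
/-- The sum is supported on the stationary points. -/
theorem sum_stat [Fintype R] (I : Ideal R) (b : R) (η θ : R → ℂ) (hη : MC η) (hθ : AC θ)
    (hI : ∀ x ∈ I, IsNilpotent x) (hb : IsNilpotent b)
    (hbI : ∀ x ∈ I, ∀ y ∈ I, b * (x * y) = 0) :
    ‖∑ a : R, η (a + b) * (starRingEnd ℂ) (η a) * θ a‖ ≤ (Stat I b η θ).ncard := by
  set F : R → ℂ := fun a => η (a + b) * (starRingEnd ℂ) (η a) * θ a with hF
  have hFn : ∀ a, ‖F a‖ ≤ 1 := by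
    intro a
    simp only [hF, norm_mul, RCLike.norm_conj, hθ.norm, mul_one]
    exact mul_le_one₀ (hη.norm_le _) (norm_nonneg _) (hη.norm_le _)
  have hcard : (0 : ℝ) < Fintype.card I := by
    exact_mod_cast Fintype.card_pos
  -- averaging
  have h1 : (Fintype.card I : ℂ) * ∑ a, F a = ∑ a, ∑ k : I, F (a + k) := by
    rw [Finset.sum_comm]
    have h2 : ∀ k : I, ∑ a, F (a + k) = ∑ a, F a := fun k =>
      Equiv.sum_comp (Equiv.addRight (k : R)) F
    simp only [h2, Finset.sum_const, Finset.card_univ, nsmul_eq_mul]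
  -- the inner sums
  have h2 : ∀ a, ‖∑ k : I, F (a + k)‖ ≤ if a ∈ Stat I b η θ then (Fintype.card I : ℝ) else 0 := by
    intro a
    by_cases ha : IsUnit a
    · have hab : IsUnit (a + b) := unit_add_nil ha hb
      obtain ⟨u, hu⟩ := (ha.mul hab).exists_right_inv
      have h3 : ∀ k : I, F (a + k) = F a * (η (1 - k * b * u) * θ k) := fun k =>
        shift I b η θ hη hθ hI hb hbI a u hu (k : R) k.2
      simp only [h3]
      rw [← Finset.mul_sum]
      split_ifs with hs
      · obtain ⟨u', hu', hk⟩ := hs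
        have huu : u' = u := by
          linear_combination u * hu' - u' * hu
        subst huu
        have h4 : ∑ k : I, (η (1 - k * b * u') * θ k) = Fintype.card I := by
          rw [Finset.sum_congr rfl fun (k : I) _ => hk (k : R) k.2]
          simp
        rw [h4, norm_mul]
        calc ‖F a‖ * ‖((Fintype.card I : ℕ) : ℂ)‖ ≤ 1 * (Fintype.card I : ℝ) := by
              rw [Complex.norm_natCast]
              exact mul_le_mul_of_nonneg_right (hFn a) hcard.le
          _ = _ := one_mul _
      · have h4 : ∑ k : I, (η (1 - k * b * u) * θ k) = 0 := by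
          refine hom_sum (fun k : I => η (1 - k * b * u) * θ k) (fun x y => ?_) ?_
          · have h5 : (1 - ((x + y : I) : R) * b * u) = (1 - x * b * u) * (1 - y * b * u) := by
              have := hbI x x.2 y y.2
              push_cast
              linear_combination (-(b * u ^ 2)) * this
            rw [h5, hη.mul]
            have h6 : θ ((x + y : I) : R) = θ x * θ y := by
              push_cast
              exact hθ.add _ _
            rw [h6]
            ring
          · by_contra hc
            push Not at hc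
            exact hs ⟨u, hu, fun k hk => hc ⟨k, hk⟩⟩
        rw [h4, mul_zero, norm_zero]
    · have h3 : ∀ k : I, F (a + k) = 0 := by
        intro k
        have h4 : ¬ IsUnit (a + (k : R)) := by
          intro h5
          apply ha
          have h6 := unit_add_nil h5 (hI k k.2).neg
          simpa using h6
        simp only [hF, hη.zero _ h4, map_zero, mul_zero, zero_mul]
      simp only [h3, Finset.sum_const_zero, norm_zero]
      split_ifs
      · exact hcard.le
      · exact le_refl 0
  have h3 : (Fintype.card I : ℝ) * ‖∑ a, F a‖ ≤ (Fintype.card I : ℝ) * (Stat I b η θ).ncard := by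
    calc (Fintype.card I : ℝ) * ‖∑ a, F a‖ = ‖(Fintype.card I : ℂ) * ∑ a, F a‖ := by
          rw [norm_mul, Complex.norm_natCast]
      _ = ‖∑ a, ∑ k : I, F (a + k)‖ := by rw [h1]
      _ ≤ ∑ a, ‖∑ k : I, F (a + k)‖ := norm_sum_le _ _
      _ ≤ ∑ a, if a ∈ Stat I b η θ then (Fintype.card I : ℝ) else 0 :=
          Finset.sum_le_sum fun a _ => h2 a
      _ = _ := by
          rw [← Finset.sum_filter, Finset.sum_const, nsmul_eq_mul, mul_comm]
          congr 2
          rw [Set.ncard_eq_toFinset_card']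
          congr 1
          ext x
          simp
  exact le_of_mul_le_mul_left h3 hcard

/-- two stationary points -/
theorem stat_pair (I : Ideal R) (b : R) (η θ : R → ℂ) (hη : MC η) (hp : Prim η)
    (hbI : ∀ x ∈ I, ∀ y ∈ I, b * (x * y) = 0) (a a' : R) (ha : a ∈ Stat I b η θ)
    (ha' : a' ∈ Stat I b η θ) (k : R) (hk : k ∈ I) : (a - a') * (a + a' + b) * b * k = 0 := by
  obtain ⟨u, hu, h1⟩ := ha
  obtain ⟨v, hv, h2⟩ := ha'
  have h3 : ∀ k ∈ I, η (1 - k * b * (u - v)) = 1 := by
    intro k hk
    have e1 := h1 k hk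
    have e2 := h2 k hk
    have hkk : b * (k * k) = 0 := hbI k hk k hk
    have e3 : (1 - k * b * u) = (1 - k * b * v) * (1 - k * b * (u - v)) := by
      linear_combination (-(b * v * (u - v))) * hkk
    have e4 : η (1 - k * b * u) = η (1 - k * b * v) * η (1 - k * b * (u - v)) := by
      rw [e3, hη.mul]
    have hun : η (1 - k * b * v) * θ k ≠ 0 := by
      rw [e2]; exact one_ne_zero
    have e5 : η (1 - k * b * v) * θ k * η (1 - k * b * (u - v)) = 1 := by
      rw [← e1, e4]; ring
    rw [e2, one_mul] at e5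
    exact e5
  have h4 : k * b * (u - v) = 0 := by
    have h5 : -(k * b * (u - v)) = 0 := by
      refine hp _ fun r => ?_
      have h6 := h3 (r * k) (I.mul_mem_left r hk)
      rw [← h6]
      congr 1
      ring
    rw [← neg_neg (k * b * (u - v)), h5, neg_zero]
  have h5 : u - v = u * v * (a' * (a' + b) - a * (a + b)) := by
    linear_combination v * hu - u * hv
  have h6 : (a - a') * (a + a' + b) * b * k =
      -(k * b * (u - v)) * (a * (a + b)) * (a' * (a' + b)) := by
    rw [h5]
    linear_combination (-(k * b * (a - a') * (a + a' + b)) * (a' * (a' + b)) * v) * hu -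
      (k * b * (a - a') * (a + a' + b)) * hv
  rw [h6, h4]
  ring

open scoped Classical in
/-- counting the solutions of `(a - a') (a + a' + b) ∈ J` -/
theorem count_sol [Fintype R] (J : Ideal R) (b a' : R) (hu : IsUnit (2 * a' + b)) :
    ({a : R | (a - a') * (a + a' + b) ∈ J}).ncard ≤ Nat.card J * Nat.card {D : Ideal R // J ≤ D} := by
  have hfin : Finite {D : Ideal R // J ≤ D} := by
    have : Finite (Ideal R) := Finite.of_injective (fun D : Ideal R => (D : Set R)) SetLike.coe_injective
    infer_instance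
  -- the ideal attached to a solution
  let D : R → Ideal R := fun a => Ideal.span {a - a'} ⊔ J
  have hJD : ∀ a, J ≤ D a := fun a => le_sup_right
  -- the fibres
  have hkey : ∀ a c : R, (a - a') * (a + a' + b) ∈ J → (c - a') * (c + a' + b) ∈ J →
      D a = D c → a - c ∈ J := by
    intro a c ha hc hac
    -- E a = span {a + a' + b} ⊔ J
    have hc1 : c - a' ∈ D a := by
      rw [hac]
      exact Ideal.mem_sup_left (Ideal.subset_span rfl)
    obtain ⟨x, hx, j, hj, hxj⟩ := Submodule.mem_sup.1 hc1
    obtain ⟨r, hr⟩ := Ideal.mem_span_singleton'.1 hx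
    -- c - a' = r (a - a') + j
    have ha1 : a - a' ∈ D c := by
      rw [← hac]
      exact Ideal.mem_sup_left (Ideal.subset_span rfl)
    obtain ⟨x', hx', j', hj', hxj'⟩ := Submodule.mem_sup.1 ha1
    obtain ⟨r', hr'⟩ := Ideal.mem_span_singleton'.1 hx'
    obtain ⟨w, hw⟩ := hu.exists_right_inv
    -- (a - a') (c + a' + b) ∈ J and (c - a') (a + a' + b) ∈ J
    have h1 : (a - a') * (c + a' + b) ∈ J := by
      have : (a - a') * (c + a' + b) = r' * ((c - a') * (c + a' + b)) + (c + a' + b) * j' := by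
        linear_combination (c + a' + b) * (-hxj' - hr')
      rw [this]
      exact J.add_mem (J.mul_mem_left _ hc) (J.mul_mem_left _ hj')
    have h2 : (c - a') * (a + a' + b) ∈ J := by
      have : (c - a') * (a + a' + b) = r * ((a - a') * (a + a' + b)) + (a + a' + b) * j := by
        linear_combination (a + a' + b) * (-hxj - hr)
      rw [this]
      exact J.add_mem (J.mul_mem_left _ ha) (J.mul_mem_left _ hj)
    -- (a - c) (2 a' + b) ∈ J
    have h3 : (a - c) * (2 * a' + b) ∈ J := by
      have : (a - c) * (2 * a' + b) = (a - a') * (c + a' + b) - (c - a') * (a + a' + b) := by ring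
      rw [this]
      exact J.sub_mem h1 h2
    have h4 : a - c = w * ((a - c) * (2 * a' + b)) := by
      linear_combination (-(a - c)) * hw
    rw [h4]
    exact J.mul_mem_left _ h3
  -- choose representatives
  set T : Set R := {a : R | (a - a') * (a + a' + b) ∈ J} with hT
  have hrep : ∀ E : {D : Ideal R // J ≤ D}, ∃ c : R, ∀ a ∈ T, D a = E.1 → a - c ∈ J := by
    intro E
    by_cases h : ∃ c ∈ T, D c = E.1
    · obtain ⟨c, hc, hcE⟩ := h
      exact ⟨c, fun a ha haE => hkey a c ha hc (haE.trans hcE.symm)⟩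
    · push Not at h
      exact ⟨0, fun a ha haE => absurd haE (h a ha)⟩
  choose c hc using hrep
  let f : T → J × {D : Ideal R // J ≤ D} := fun a =>
    (⟨a.1 - c ⟨D a.1, hJD a.1⟩, hc ⟨D a.1, hJD a.1⟩ a.1 a.2 rfl⟩, ⟨D a.1, hJD a.1⟩)
  have hf : Function.Injective f := by
    intro a a₁ h
    have h2 : (⟨D a.1, hJD a.1⟩ : {D : Ideal R // J ≤ D}) = ⟨D a₁.1, hJD a₁.1⟩ :=
      congrArg Prod.snd h
    have h1 := congrArg (fun p => (p.1 : R)) h
    simp only [f] at h1
    rw [h2] at h1
    exact Subtype.ext (sub_left_injective h1)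
  have h1 := Nat.card_le_card_of_injective f hf
  rw [Nat.card_prod] at h1
  exact h1

open scoped Classical in
/-- The bound for the complete sums. -/
theorem complete_sum [Fintype R] (I : Ideal R) (b : R) (η θ : R → ℂ) (hη : MC η) (hp : Prim η)
    (hθ : AC θ) (hI : ∀ x ∈ I, IsNilpotent x) (hb : IsNilpotent b)
    (hbI : ∀ x ∈ I, ∀ y ∈ I, b * (x * y) = 0) (h2 : IsUnit (2 : R)) (J : Ideal R)
    (hJ : ∀ r : R, (∀ k ∈ I, r * b * k = 0) → r ∈ J) :
    ‖∑ a : R, η (a + b) * (starRingEnd ℂ) (η a) * θ a‖ ≤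
      (Nat.card J * Nat.card {D : Ideal R // J ≤ D} : ℕ) := by
  refine (sum_stat I b η θ hη hθ hI hb hbI).trans ?_
  norm_cast
  by_cases he : (Stat I b η θ).Nonempty
  · obtain ⟨a', ha'⟩ := he
    have hau : IsUnit a' := by
      obtain ⟨u, hu, -⟩ := ha'
      refine IsUnit.of_mul_eq_one ((a' + b) * u) ?_
      rw [← hu]; ring
    refine le_trans ?_ (count_sol J b a' (unit_add_nil (h2.mul hau) hb))
    refine Set.ncard_le_ncard (fun a ha => ?_) (Set.toFinite _)
    exact hJ _ fun k hk => stat_pair I b η θ hη hp hbI a a' ha ha' k hk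
  · rw [Set.not_nonempty_iff_eq_empty.1 he]
    simp

end FR

end Pool.Agent.H29.TC
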