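import Pool.Agent.H23.LB.Targets
import Pool.Agent.H29.TC.FR

/-!
# Thin cosets of Hecke characters: definitions

The modulus is `l * g * k ^ 2`, where `k` is odd and has the same prime divisors as `g`, and `l` is
prime to `k`. A character modulo `l * g * k ^ 2`, which is primitive at the primes dividing `k`, is
twisted by the characters modulo `l * g`.
-/

set_option autoImplicit false

open NumberField NumberField.InfinitePlace NumberField.Units
  NumberField.Units.dirichletUnitTheorem MeasureTheory Set Filter Complex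
open scoped nonZeroDivisors ENNReal

namespace Pool.Agent.H29.TC

open Pool.Agent.H25.HK Pool.Agent.H28.RC Pool.Agent.H23.LB

section NF

variable {K : Type} [Field K] [NumberField K] {f g : Ideal (𝓞 K)}

omit [NumberField K] in
theorem conj_sg (S : Finset (RP K)) (x : K) : (starRingEnd ℂ) (sg K S x) = sg K S x := by
  unfold sg
  rw [map_prod]
  refine Finset.prod_congr rfl fun v _ => ?_
  split_ifs <;> simp

theorem conj_ph (ν : InfinitePlace K → ℝ) (x : K) : (starRingEnd ℂ) (ph ν x) = ph (-ν) x := by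
  unfold ph
  rw [← Complex.exp_conj]
  congr 1
  simp [Finset.sum_neg_distrib]

/-- the complex conjugate character -/
noncomputable def bar (χ : HC K f) : HC K f where
  ψ I := (starRingEnd ℂ) (χ.ψ I)
  S := χ.S
  ν := -χ.ν
  map_top := by simp [χ.map_top]
  map_mul I J := by simp [χ.map_mul]
  map_bot := by simp [χ.map_bot]
  norm_one I h1 h2 := by simpa using χ.norm_one I h1 h2
  eq_zero I h := by simp [χ.eq_zero I h]
  princ a h1 h2 := by
    rw [χ.princ a h1 h2, map_mul, conj_sg, conj_ph]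
  norm_zero := by
    have := χ.norm_zero
    simp [Finset.sum_neg_distrib, this]

open scoped Classical in
omit [NumberField K] in
theorem sg_symmDiff (S T : Finset (RP K)) (x : K) :
    sg K (symmDiff S T) x = sg K S x * sg K T x := by
  have h : ∀ v : RP K, (if 0 < re v x then (1 : ℂ) else -1) * (if 0 < re v x then (1 : ℂ) else -1)
      = 1 := by
    intro v
    split_ifs <;> norm_num
  unfold sg
  rw [← Finset.prod_inter_mul_prod_sdiff S T (fun v => if 0 < re v x then (1 : ℂ) else -1),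
    ← Finset.prod_inter_mul_prod_sdiff T S (fun v => if 0 < re v x then (1 : ℂ) else -1),
    Finset.inter_comm T S, symmDiff_def, Finset.sup_eq_union, Finset.prod_union]
  · have h1 : (∏ v ∈ S ∩ T, (if 0 < re v x then (1 : ℂ) else -1)) *
        (∏ v ∈ S ∩ T, (if 0 < re v x then (1 : ℂ) else -1)) = 1 := by
      rw [← Finset.prod_mul_distrib]
      exact Finset.prod_eq_one fun v _ => h v
    linear_combination (-(∏ v ∈ S \ T, (if 0 < re v x then (1 : ℂ) else -1)) *
      (∏ v ∈ T \ S, (if 0 < re v x then (1 : ℂ) else -1))) * h1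
  · rw [Finset.disjoint_left]
    intro v h1 h2
    rw [Finset.mem_sdiff] at h1 h2
    exact h1.2 h2.1

theorem ph_add (ν ν' : InfinitePlace K → ℝ) (x : K) : ph (ν + ν') x = ph ν x * ph ν' x := by
  unfold ph
  rw [← Complex.exp_add]
  congr 1
  rw [← add_mul, ← Complex.ofReal_add, ← Finset.sum_add_distrib]
  congr 2
  refine Finset.sum_congr rfl fun v _ => ?_
  rw [Pi.add_apply]
  ring

open scoped Classical in
/-- the product of a character modulo `f` and a character modulo a divisor `g` of `f` -/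
noncomputable def tw (χ : HC K f) (η : HC K g) (h : f ≤ g) : HC K f where
  ψ I := χ.ψ I * η.ψ I
  S := symmDiff χ.S η.S
  ν := χ.ν + η.ν
  map_top := by simp [χ.map_top, η.map_top]
  map_mul I J := by rw [χ.map_mul, η.map_mul]; ring
  map_bot := by simp [χ.map_bot]
  norm_one I h1 h2 := by
    rw [norm_mul, χ.norm_one I h1 h2, η.norm_one I h1 (top_le_iff.1 (h2 ▸ sup_le_sup_left h I)),
      one_mul]
  eq_zero I h1 := by rw [χ.eq_zero I h1, zero_mul]
  princ a h1 h2 := by
    rw [χ.princ a h1 h2, η.princ a h1 (h h2), sg_symmDiff, ph_add]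
    ring
  norm_zero := by
    have h1 := χ.norm_zero
    have h2 := η.norm_zero
    simp only [Pi.add_apply, mul_add, Finset.sum_add_distrib, h1, h2, add_zero]

/-- The modulus is `l g k ^ 2`: `k` is odd, different from `1` and has the same prime divisors as
`g`, and `l` is prime to `k`. -/
structure GK (l g k : Ideal (𝓞 K)) : Prop where
  l_ne : l ≠ ⊥
  g_ne : g ≠ ⊥
  k_ne : k ≠ ⊥
  k_top : k ≠ ⊤
  rad : ∀ P : Ideal (𝓞 K), P.IsPrime → (g ≤ P ↔ k ≤ P)
  cop : l ⊔ k = ⊤
  odd : Ideal.span {(2 : 𝓞 K)} ⊔ k = ⊤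

/-- the modulus -/
abbrev fk (l g k : Ideal (𝓞 K)) : Ideal (𝓞 K) := l * (g * k ^ 2)

omit [NumberField K] in
theorem fk_le (l g k : Ideal (𝓞 K)) : fk l g k ≤ l * g := Ideal.mul_mono_right Ideal.mul_le_left

/-- The character modulo `f` is primitive at the primes dividing `k`. -/
def Prk (k : Ideal (𝓞 K)) (χ : HC K f) : Prop :=
  ∀ P : Ideal (𝓞 K), P.IsPrime → k ≤ P → ∃ a : 𝓞 K, a ≠ 0 ∧ Ideal.span {a} ⊔ f = ⊤ ∧
    (∀ x ∈ P, (a - 1) * x ∈ f) ∧ χ.ψ (Ideal.span {a}) ≠ sg K χ.S a * ph χ.ν (a : K)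

/-- `x₀` is a generator of `M` modulo `f M` -/
structure Gn (f : Ideal (𝓞 K)) (M : FI K) (x₀ : K) : Prop where
  mem : x₀ ∈ M
  ne : x₀ ≠ 0
  gen : ∀ y ∈ M, ∃ a : 𝓞 K, a ≠ 0 ∧ y - (a : K) * x₀ ∈ (f : FI K) * M
  iff : ∀ (a : 𝓞 K) (j : Ideal (𝓞 K)), f ≤ j → ((a : K) * x₀ ∈ (j : FI K) * M ↔ a ∈ j)

/-- a primitive multiplicative character modulo `f` -/
structure LC (f : Ideal (𝓞 K)) (η : 𝓞 K ⧸ f → ℂ) : Prop where
  mc : MC η
  prim : ∀ w : 𝓞 K ⧸ f, w ≠ 0 → ∃ r : 𝓞 K ⧸ f, IsUnit (1 + r * w) ∧ η (1 + r * w) ≠ 1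

open scoped Classical in
/-- the function `η(x / x₀)` on `M / f M` -/
noncomputable def cq (f : Ideal (𝓞 K)) (η : 𝓞 K ⧸ f → ℂ) (M : FI K) (x₀ x : K) : ℂ :=
  if h : ∃ a : 𝓞 K, x - (a : K) * x₀ ∈ (f : FI K) * M then η (Ideal.Quotient.mk f h.choose) else 0

variable (K)

/-- the coefficients `c` in a residue class modulo `g` -/
noncomputable def cr (g : Ideal (𝓞 K)) (M : FI K) (c : K → ℂ) (r x : K) : ℂ :=
  ci K g M r x * c x

open scoped Classical in
/-- the ideals dividing `k` -/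
noncomputable def dvs (k : Ideal (𝓞 K)) : Finset (Ideal (𝓞 K)) :=
  if h : {e : Ideal (𝓞 K) | k ≤ e}.Finite then h.toFinset else ∅

/-- `N(k) N(g)^(-1/2)` -/
noncomputable def rho (g k : Ideal (𝓞 K)) : ℝ := Nf K k / Real.sqrt (Nf K g)

/-- the completed Epstein zeta functions of a lattice and its dual at `1 + κ` -/
noncomputable def AS (κ : ℝ) (M : FI K) (z : logSpace K) : ℝ :=
  AK K κ M z + AK K κ (du K M) (-z)

/-- the sum of the Epstein zeta functions -/
noncomputable def Et (κ : ℝ) (g k : Ideal (𝓞 K)) (M : FI K) (z : logSpace K) : ℝ :=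
  AS K κ M z + AS K κ (((k ^ 2 : Ideal (𝓞 K)) : FI K) * M) z +
    ∑ e ∈ dvs K k, AS K κ (((g * e : Ideal (𝓞 K)) : FI K) * M) z

/-- the rotated Gaussian with linear factors at `S` -/
noncomputable def GZ (S : Finset (RP K)) (φ : ℝ) (y : InfinitePlace K → ℝ) (x : K) : ℂ :=
  ((ws K S y x : ℝ) : ℂ) * cexp (-Real.pi * (cexp (φ * I) * ((qK K y x : ℝ) : ℂ)))

/-- the theta function, normalised such that `M` has covolume `T / N(f) ^ (1/2)` -/
noncomputable def Wc (S : Finset (RP K)) (f : Ideal (𝓞 K)) (M : FI K) (c : K → ℂ) (φ : ℝ)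
    (z : logSpace K) (T : ℝ) : ℂ :=
  tz K S M c (φ * I) (yc K (Real.log (T * Real.sqrt (Nf K f) / cv K ((f : FI K) * M))) z)

end NF

end Pool.Agent.H29.TC
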